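import Pool.Agent.helper1.UN.SpecU

set_option autoImplicit false

open NumberField Complex MeasureTheory NumberField.Units NumberField.Units.dirichletUnitTheorem

open scoped Classical

namespace Pool.Agent.UN

theorem VLV_m {K : Type} [Field K] [NumberField K] (w : InfinitePlace K) : (w.mult : ℝ) ≠ 0 := by
  exact_mod_cast InfinitePlace.mult_ne_zero

theorem VLV_w0 {K : Type} [Field K] [NumberField K] (l : logSpace K) :
    lv l (w₀ : InfinitePlace K) = -(∑ w', l w') / ((w₀ : InfinitePlace K).mult : ℝ) := by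
  unfold lv
  rw [dif_pos rfl]

theorem VLV_ne {K : Type} [Field K] [NumberField K] (l : logSpace K) (w : InfinitePlace K) (h : w ≠ w₀) :
    lv l w = l ⟨w, h⟩ / (w.mult : ℝ) := by
  unfold lv
  rw [dif_neg h]

theorem VLV_sum {K : Type} [Field K] [NumberField K] (f : InfinitePlace K → ℝ) :
    ∑ w : InfinitePlace K, f w = f w₀ + ∑ w : {w : InfinitePlace K // w ≠ w₀}, f w := by
  exact Fintype.sum_eq_add_sum_subtype_ne f w₀

theorem VLV_zero {K : Type} [Field K] [NumberField K] (l : logSpace K) :
    ∑ w : InfinitePlace K, (w.mult : ℝ) * lv l w = 0 := by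
  rw [VLV_sum, VLV_w0, mul_div_cancel₀ _ (VLV_m _)]
  have : ∑ w : {w : InfinitePlace K // w ≠ w₀}, ((w : InfinitePlace K).mult : ℝ) * lv l w = ∑ w', l w' := by
    apply Finset.sum_congr rfl
    intro w _
    rw [VLV_ne l w w.2, mul_div_cancel₀ _ (VLV_m _)]
  rw [this]
  ring

/-- Row VLV. -/
theorem VLV (hPRO : PRO_stmt) : VLV_stmt := by
  intro K _ _
  refine ⟨VLV_zero, ?_, ?_, ?_, ?_, ?_, ?_⟩
  · intro l l' w
    by_cases h : w = w₀
    · subst h
      rw [VLV_w0, VLV_w0, VLV_w0]
      simp only [Pi.add_apply, Finset.sum_add_distrib]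
      ring
    · rw [VLV_ne _ _ h, VLV_ne _ _ h, VLV_ne _ _ h]
      simp only [Pi.add_apply]
      ring
  · intro l w
    by_cases h : w = w₀
    · subst h
      rw [VLV_w0, VLV_w0]
      simp only [Pi.neg_apply, Finset.sum_neg_distrib]
      ring
    · rw [VLV_ne _ _ h, VLV_ne _ _ h]
      simp only [Pi.neg_apply]
      ring
  · intro u w
    by_cases h : w = w₀
    · subst h
      rw [VLV_w0]
      unfold lu
      rw [sum_logEmbedding_component]
      rw [neg_mul, neg_neg, mul_div_cancel_left₀ _ (VLV_m _)]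
    · rw [VLV_ne _ _ h]
      unfold lu
      rw [logEmbedding_component, mul_div_cancel_left₀ _ (VLV_m _)]
  · intro s hs
    refine ⟨fun w => ((w : InfinitePlace K).mult : ℝ) * s w, ?_⟩
    intro w
    by_cases h : w = w₀
    · subst h
      rw [VLV_w0]
      rw [VLV_sum] at hs
      rw [div_eq_iff (VLV_m _)]
      linarith
    · rw [VLV_ne _ _ h]
      simp only
      rw [mul_div_cancel_left₀ _ (VLV_m _)]
  · intro w
    by_cases h : w = w₀
    · subst h
      simp only [VLV_w0]
      exact ((continuous_finsetSum _ (fun i _ => continuous_apply i)).neg).div_const _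
    · simp only [VLV_ne _ _ h]
      exact (continuous_apply _).div_const _
  · intro ρ l hρ
    refine ⟨fun w => mul_pos hρ (Real.exp_pos _), ?_⟩
    have h1 : ∀ w : InfinitePlace K, (Yl ρ l w) ^ (-((w.mult : ℝ) / 2)) =
        ρ ^ (-((w.mult : ℝ) / 2)) * Real.exp (-((w.mult : ℝ) * lv l w)) := by
      intro w
      unfold Yl
      rw [Real.mul_rpow hρ.le (Real.exp_pos _).le, ← Real.exp_mul]
      congr 2
      ring
    rw [Finset.prod_congr rfl (fun w _ => h1 w), Finset.prod_mul_distrib, ← Real.exp_sum,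
      Finset.sum_neg_distrib, VLV_zero, neg_zero, Real.exp_zero, mul_one, ← Real.rpow_sum_of_pos hρ]
    congr 1
    rw [Finset.sum_neg_distrib, ← Finset.sum_div]
    congr 2
    have := (hPRO K).2.1
    rw [← this]
    push_cast
    rfl

end Pool.Agent.UN
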