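import Pool.Agent.helper1.UN.SpecU

set_option autoImplicit false

open NumberField Complex MeasureTheory NumberField.Units NumberField.Units.dirichletUnitTheorem

open scoped Classical

namespace Pool.Agent.UN

theorem VQB_one (n a : ℕ) (u : ℝ) (hn : 1 ≤ n) (hu : 0 < u) :
    u ^ ((a : ℝ) / 2) * Real.exp (-(Real.pi * ((n : ℝ) * u))) ≤
      (1 + (a.factorial : ℝ)) * Real.exp (-((n : ℝ) * u)) := by
  have h1 : u ^ ((a : ℝ) / 2) ≤ 1 + u ^ a := by
    rcases le_total u 1 with h | h
    · have : u ^ ((a : ℝ) / 2) ≤ 1 := Real.rpow_le_one hu.le h (by positivity)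
      have h2 : 0 ≤ u ^ a := by positivity
      linarith
    · have : u ^ ((a : ℝ) / 2) ≤ u ^ ((a : ℝ)) := Real.rpow_le_rpow_of_exponent_le h (by
        have : (0 : ℝ) ≤ a := Nat.cast_nonneg a
        linarith)
      rw [Real.rpow_natCast] at this
      linarith
  have h2 : u ^ a ≤ (a.factorial : ℝ) * Real.exp u := by
    have := Real.pow_div_factorial_le_exp u hu.le a
    rw [div_le_iff₀ (by positivity)] at this
    linarith
  have h3 : u ^ ((a : ℝ) / 2) ≤ (1 + (a.factorial : ℝ)) * Real.exp (2 * u) := by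
    have e1 : (1 : ℝ) ≤ Real.exp (2 * u) := Real.one_le_exp (by linarith)
    have e2 : Real.exp u ≤ Real.exp (2 * u) := Real.exp_le_exp.2 (by linarith)
    have e3 : (0 : ℝ) ≤ (a.factorial : ℝ) := by positivity
    nlinarith [mul_le_mul_of_nonneg_left e2 e3]
  have h4 : Real.exp (-(Real.pi * ((n : ℝ) * u))) ≤ Real.exp (-(2 * u)) * Real.exp (-((n : ℝ) * u)) := by
    rw [← Real.exp_add]
    apply Real.exp_le_exp.2
    have hpi := Real.pi_gt_three
    have hn' : (1 : ℝ) ≤ n := by exact_mod_cast hn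
    nlinarith [mul_nonneg (mul_nonneg (sub_nonneg.2 hpi.le) (by linarith : (0 : ℝ) ≤ n)) hu.le,
      mul_nonneg (sub_nonneg.2 hn') hu.le]
  calc u ^ ((a : ℝ) / 2) * Real.exp (-(Real.pi * ((n : ℝ) * u)))
      ≤ ((1 + (a.factorial : ℝ)) * Real.exp (2 * u)) * (Real.exp (-(2 * u)) * Real.exp (-((n : ℝ) * u))) :=
        mul_le_mul h3 h4 (Real.exp_pos _).le (by positivity)
    _ = (1 + (a.factorial : ℝ)) * (Real.exp (2 * u) * Real.exp (-(2 * u))) * Real.exp (-((n : ℝ) * u)) := by ring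
    _ = (1 + (a.factorial : ℝ)) * Real.exp (-((n : ℝ) * u)) := by
        rw [← Real.exp_add, add_neg_cancel, Real.exp_zero, mul_one]

theorem VQB_norm {K : Type} [Field K] [NumberField K] (τ : InfinitePlace K → ℝ) (a : InfinitePlace K → ℕ)
    (u : InfinitePlace K → ℝ) (hu : ∀ w, 0 < u w) :
    ‖QT τ a u‖ = (∏ w, (u w) ^ ((a w : ℝ) / 2)) *
      Real.exp (-(Real.pi * ∑ w : InfinitePlace K, (w.mult : ℝ) * u w)) := by
  unfold QT
  rw [norm_mul, norm_prod, Complex.norm_real, Real.norm_eq_abs, abs_of_pos (Real.exp_pos _)]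
  congr 1
  apply Finset.prod_congr rfl
  intro w _
  rw [Complex.norm_cpow_eq_rpow_re_of_pos (hu w)]
  congr 1
  simp [ex]

/-- Row VQB. -/
theorem VQB : VQB_stmt := by
  intro K _ _ τ a
  refine ⟨⟨∏ w : InfinitePlace K, (1 + ((a w).factorial : ℝ)), ?_, ?_⟩, ?_⟩
  · have : ∏ w : InfinitePlace K, (1 : ℝ) ≤ ∏ w : InfinitePlace K, (1 + ((a w).factorial : ℝ)) :=
      Finset.prod_le_prod (fun _ _ => zero_le_one) (fun w _ => by
        have : (0 : ℝ) ≤ ((a w).factorial : ℝ) := by positivity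
        linarith)
    simpa using this
  · intro u hu
    rw [VQB_norm τ a u hu, Finset.mul_sum, ← Finset.sum_neg_distrib, Real.exp_sum, ← Finset.prod_mul_distrib,
      ← Finset.sum_neg_distrib, Real.exp_sum, ← Finset.prod_mul_distrib]
    apply Finset.prod_le_prod
    · intro w _
      have := hu w
      positivity
    · intro w _
      exact VQB_one w.mult (a w) (u w) (Nat.one_le_iff_ne_zero.2 InfinitePlace.mult_ne_zero) (hu w)
  · intro u hu
    rw [VQB_norm τ a u hu]
    unfold QT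
    rw [Complex.ofReal_mul, Complex.ofReal_prod]
    congr 1
    apply Finset.prod_congr rfl
    intro w _
    rw [Complex.ofReal_cpow (hu w).le]
    congr 1
    simp [ex]

end Pool.Agent.UN
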